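import Mathlib
import Pool.Agent.H504R3.ThC2

/-!
# The theory of the hyperfinite II_1 factor is not simple

Index the tensor factors of the hyperfinite factor by pairs (row, column). In the ultrapower of `R`
take, for every branch `f` of the binary tree, the elements `a_f` and `c_{f,i}` given at level `n` by
the Pauli matrix in the row with the code of `f|n` and the column `0` and `i + 1`. Flips of tensor
factors give a unitary `x` with `x a_f x* = c_{f,0}` for all `f`. The type of `x` over the set `B` of
all `a_f` and `c_{f,0}` divides over every separable subset `A` of `B`: `A` is countable, so it does
not contain some `c_{f,0}`, and `c_{f,0}, c_{f,1}, …` is indiscernible over the rest of `B`, because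
finite permutations of the tensor factors are implemented by unitaries of `R`.
-/

set_option autoImplicit false

namespace Pool.Agent.Results.MP_baa3fb_lc.ThRNotSimple

open Pool.Agent.H504R3.S

/-- The theory of the hyperfinite II_1 factor is not simple. -/
theorem result (R : Str) (hR : R.IsHyperfinite) : ¬ R.HasSimpleTheory :=
  not_simple R hR

end Pool.Agent.Results.MP_baa3fb_lc.ThRNotSimple
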